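import Pool.Agent.H308R2.ZS.Stubs

/-! Project ZS, task EX (helper380): existence of reduced free products (assembly). -/

set_option autoImplicit false

open scoped ComplexConjugate Kronecker Matrix.Norms.L2Operator

noncomputable section

namespace Pool.Agent.H308R2.ZS.T_EX

open Pool.Agent.H923R2.FP Pool.Agent.H923R2.FZ Pool.Agent.H308R2.ZS

theorem EX_lift {J : Type} {D : J → Type} [∀ j, CStarAlgebra (D j)] {A : Type} [CStarAlgebra A]
    (e : ∀ j, D j →⋆ₐ[ℂ] A) : ∀ w : List (J × A), (∀ z ∈ w, z.2 ∈ (e z.1).range) →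
    ∃ w' : List (Σ j, D j), w'.map (fun z => (z.1, e z.1 z.2)) = w := by
  intro w
  induction w with
  | nil => intro _; exact ⟨[], rfl⟩
  | cons z w ih =>
    intro h
    obtain ⟨w', hw'⟩ := ih (fun y hy => h y (List.mem_cons_of_mem _ hy))
    obtain ⟨d, hd⟩ := h z List.mem_cons_self
    refine ⟨⟨z.1, d⟩ :: w', ?_⟩
    rw [List.map_cons, hw']
    congr 1
    exact Prod.ext rfl hd

theorem EX_core (hTRC : S_TRC) (hFAI : S_FAI) {J : Type} (D : J → Type)
    [∀ j, CStarAlgebra (D j)] (t : ∀ j, D j →ₗ[ℂ] ℂ) (ht : ∀ j, FTS (t j)) {H : Type}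
    [NormedAddCommGroup H] [InnerProductSpace ℂ H] [CompleteSpace H] (Ω : H) (hΩ : ‖Ω‖ = 1)
    (e' : ∀ j, D j →⋆ₐ[ℂ] (H →L[ℂ] H)) (hvac : ∀ j x, inner ℂ Ω (e' j x Ω) = t j x)
    (hfree : ∀ w : List (Σ j, D j), w ≠ [] → (∀ z ∈ w, t z.1 z.2 = 0) →
      w.IsChain (fun x y => x.1 ≠ y.1) → inner ℂ Ω ((w.map fun z => e' z.1 z.2).prod Ω) = 0)
    (hcyc : ∀ (u : H) (ε : ℝ), 0 < ε →
      ∃ X ∈ StarAlgebra.adjoin ℂ (⋃ j, Set.range (e' j)), ‖X Ω - u‖ < ε) :
    ∃ (A : Type) (_ : CStarAlgebra A) (τ : A →ₗ[ℂ] ℂ) (e : ∀ j, D j →⋆ₐ[ℂ] A),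
      RFP D (fun j => t j) τ e := by
  set A0 : StarSubalgebra ℂ (H →L[ℂ] H) :=
    (StarAlgebra.adjoin ℂ (⋃ j, Set.range (e' j))).topologicalClosure with hA0
  have hcl : IsClosed (A0 : Set (H →L[ℂ] H)) := StarSubalgebra.isClosed_topologicalClosure _
  have hmem : ∀ j (x : D j), e' j x ∈ A0 := fun j x =>
    StarSubalgebra.le_topologicalClosure _
      (StarAlgebra.subset_adjoin ℂ _ (Set.mem_iUnion.2 ⟨j, x, rfl⟩))
  let e : ∀ j, D j →⋆ₐ[ℂ] A0 := fun j => StarAlgHom.codRestrict (e' j) A0 (hmem j)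
  have he : ∀ j x, ((e j x : A0) : H →L[ℂ] H) = e' j x := fun j x => rfl
  let τ : A0 →ₗ[ℂ] ℂ :=
    { toFun := fun X => inner ℂ Ω ((X : H →L[ℂ] H) Ω)
      map_add' := fun X Y => inner_add_right _ _ _
      map_smul' := fun c X => inner_smul_right _ _ _ }
  have hτ : ∀ X : A0, τ X = inner ℂ Ω ((X : H →L[ℂ] H) Ω) := fun X => rfl
  have hone : τ 1 = 1 := by
    rw [hτ]
    show inner ℂ Ω Ω = (1 : ℂ)
    rw [inner_self_eq_norm_sq_to_K, hΩ]
    norm_num
  have hbound : ∀ X : A0, ‖τ X‖ ≤ ‖X‖ := by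
    intro X
    rw [hτ]
    refine (norm_inner_le_norm _ _).trans ?_
    rw [hΩ, one_mul]
    have h1 := (X : H →L[ℂ] H).le_opNorm Ω
    rw [hΩ, mul_one] at h1
    exact h1
  have hinn : ∀ X : A0, τ (star X * X) =
      inner ℂ ((X : H →L[ℂ] H) Ω) ((X : H →L[ℂ] H) Ω) := by
    intro X
    rw [hτ]
    show inner ℂ Ω ((star (X : H →L[ℂ] H)) ((X : H →L[ℂ] H) Ω)) = _
    rw [ContinuousLinearMap.star_eq_adjoint, ContinuousLinearMap.adjoint_inner_right]
  have hstr : ∀ X : A0, τ (star X) = conj (τ X) := by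
    intro X
    rw [hτ, hτ]
    show inner ℂ Ω ((star (X : H →L[ℂ] H)) Ω) = _
    rw [ContinuousLinearMap.star_eq_adjoint, ContinuousLinearMap.adjoint_inner_right,
      inner_conj_symm]
  -- generation
  have hgen : (StarAlgebra.adjoin ℂ (⋃ j, Set.range (e j))).topologicalClosure = ⊤ := by
    rw [eq_top_iff]
    intro X _
    rw [← SetLike.mem_coe, StarSubalgebra.topologicalClosure_coe,
      Topology.IsInducing.subtypeVal.closure_eq_preimage_closure_image]
    have h1 : (X : H →L[ℂ] H) ∈ closure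
        ((StarAlgebra.adjoin ℂ (⋃ j, Set.range (e' j)) : StarSubalgebra ℂ (H →L[ℂ] H)) :
          Set (H →L[ℂ] H)) := by
      have h := X.2
      rw [← StarSubalgebra.topologicalClosure_coe]
      exact h
    refine closure_mono ?_ h1
    intro Y hY
    have h2 : StarAlgebra.adjoin ℂ (⋃ j, Set.range (e' j)) ≤
        (StarAlgebra.adjoin ℂ (⋃ j, Set.range (e j))).map A0.subtype := by
      rw [StarAlgebra.adjoin_le_iff]
      intro Z hZ
      obtain ⟨j, x, rfl⟩ := Set.mem_iUnion.1 hZ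
      exact ⟨e j x, StarAlgebra.subset_adjoin ℂ _ (Set.mem_iUnion.2 ⟨j, x, rfl⟩), rfl⟩
    obtain ⟨Z, hZ, hZY⟩ := h2 hY
    exact ⟨Z, hZ, hZY⟩
  -- values on the factors
  have htr : ∀ j x, τ (e j x) = t j x := fun j x => hvac j x
  -- freeness
  have hfr : FreeFam τ fun j => (e j).range := by
    intro w hw hz hch
    obtain ⟨w', hw'⟩ := EX_lift e w (fun z hzw => (hz z hzw).1)
    have hne : w' ≠ [] := by
      rintro rfl
      exact hw hw'.symm
    have h0 : ∀ z ∈ w', t z.1 z.2 = 0 := by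
      intro z hzw
      have h1 : (z.1, e z.1 z.2) ∈ w := by
        rw [← hw']
        exact List.mem_map.2 ⟨z, hzw, rfl⟩
      rw [← htr]
      exact (hz _ h1).2
    have hch' : w'.IsChain (fun x y => x.1 ≠ y.1) := by
      rw [← hw', List.isChain_map] at hch
      exact hch
    have h2 := hfree w' hne h0 hch'
    rw [hτ]
    have h3 : (((w.map Prod.snd).prod : A0) : H →L[ℂ] H) =
        (w'.map fun z => e' z.1 z.2).prod := by
      rw [← hw', List.map_map]
      have h4 := map_list_prod A0.subtype (w'.map (Prod.snd ∘ fun z => (z.1, e z.1 z.2)))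
      rw [List.map_map] at h4
      exact h4
    rw [h3]
    exact h2
  -- the trace property
  have hcomm : ∀ x y, τ (x * y) = τ (y * x) := by
    refine hTRC J A0 τ (fun j => (e j).range) hbound hone hfr ?_ ?_
    · rintro j x ⟨a, rfl⟩ y ⟨b, rfl⟩
      show τ (e j a * e j b) = τ (e j b * e j a)
      rw [← map_mul, ← map_mul, htr, htr]
      exact (ht j).comm a b
    · have h1 : (⋃ j, (((e j).range : StarSubalgebra ℂ A0) : Set A0)) =
          ⋃ j, Set.range (e j) := rfl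
      rw [h1]
      exact hgen
  refine ⟨A0, inferInstance, τ, e, ⟨⟨hone, hcomm, hstr, ?_, ?_, hbound⟩, htr, hfr, hgen⟩⟩
  · intro X
    rw [hinn]
    exact inner_self_nonneg (𝕜 := ℂ) (x := (X : H →L[ℂ] H) Ω)
  · intro X hX
    rw [hinn] at hX
    have h0 : ((X : H →L[ℂ] H) Ω) = 0 := by
      have h1 : RCLike.re (inner ℂ ((X : H →L[ℂ] H) Ω) ((X : H →L[ℂ] H) Ω)) = 0 := hX
      rw [inner_self_eq_norm_sq] at h1
      exact norm_eq_zero.1 (pow_eq_zero_iff (by norm_num) |>.1 h1)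
    apply Subtype.ext
    refine hFAI H A0 Ω ?_ ?_ X X.2 ?_
    · intro u ε hε
      obtain ⟨Y, hY, hYu⟩ := hcyc u ε hε
      exact ⟨Y, StarSubalgebra.le_topologicalClosure _ hY, hYu⟩
    · intro Y hY Z hZ
      exact hcomm ⟨Y, hY⟩ ⟨Z, hZ⟩
    · show inner ℂ Ω ((star (X : H →L[ℂ] H)) ((X : H →L[ℂ] H) Ω)) = 0
      rw [h0, map_zero, inner_zero_right]

open Classical in
theorem EX_dlt_self {ι : Type} (a : ι) : (dlt a : L2 ι) a = 1 := by
  unfold dlt
  rw [lp.single_apply_self]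

open Classical in
theorem EX_dlt_norm {ι : Type} (a : ι) : ‖(dlt a : L2 ι)‖ = 1 := by
  unfold dlt
  rw [lp.norm_single (by norm_num)]
  simp

open Classical in
theorem EX_dlt_inner {ι : Type} (a : ι) (f : L2 ι) : inner ℂ (dlt a) f = f a := by
  unfold dlt
  rw [lp.inner_single_left]
  simp

theorem t_EX (hGNSB : S_GNSB) (hAMP : S_AMP) (hBETA : S_BETA) (hVAC : S_VAC) (hFRV : S_FRV)
    (hCYC : S_CYC) (hTRC : S_TRC) (hFAI : S_FAI) : S_EX := by
  intro J D _ t ht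
  choose ι o π hvac hden using fun j => hGNSB (D j) (t j) (ht j)
  choose β hβ using fun j => hBETA J ι o j
  choose Φ hΦ using fun j => hAMP (ι j) {w : Wd ι o // NH j w} (Wd ι o) (β j)
  have hF : FPR D t ι o π β (fun j => (Φ j).comp (π j)) :=
    ⟨hvac, hden, hβ, fun j x u k s hs a => hΦ j (π j x) u k s hs a⟩
  refine EX_core hTRC hFAI D t ht (dlt (em ι o)) (EX_dlt_norm _) (fun j => (Φ j).comp (π j))
    ?_ ?_ ?_
  · intro j x
    rw [EX_dlt_inner]
    exact hVAC J D t ι o π β _ hF j x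
  · intro w hw h0 hch
    rw [EX_dlt_inner]
    exact hFRV J D t ι o π β _ hF w hw h0 hch
  · exact hCYC J D t ι o π β _ hF

end Pool.Agent.H308R2.ZS.T_EX
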